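import Pool.Agent.LibLB.Defs
import Pool.Agent.LibCov80.Loc
import Pool.Agent.LibGMM.G3
import Pool.Agent.LibGMM.G4
import Pool.Agent.LibGMM.E0

/-!
THEOREM K+, block BASE-36: closed points of a `NormalModel`, values of rational functions at closed
points, generation of `D + n H`, separation of points and of tangent vectors by linear forms.
-/

set_option autoImplicit false

open Pool.Agent.LibGMM Pool.Agent.LibK Pool.Agent.LibKB

namespace Pool.Agent.LibBG

open Pool.Agent.LibCov80 (locAlg maxI mem_locAlg mem_maxI_iff maxI_le maxI_add maxI_mul maxI_prime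
  inv_mem_loc inv_notMem_loc ne_zero_of_notMem_maxI coe_ne)

variable {L : Type} [Field L] [Algebra ℂ L]

theorem chart_fg (Y : NormalModel L) (i : Y.ι) : Algebra.FiniteType ℂ (chart Y.g i) := by
  have := Y.fin
  have hfg : (chart Y.g i).FG := by
    refine ⟨(Set.finite_range fun j => (Y.g j : L) / Y.g i).toFinset, ?_⟩
    rw [Set.Finite.coe_toFinset]; rfl
  exact (Subalgebra.fg_iff_finiteType _).1 hfg

theorem chart_noeth (Y : NormalModel L) (i : Y.ι) : IsNoetherianRing (chart Y.g i) := by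
  have := chart_fg Y i
  exact Algebra.FiniteType.isNoetherianRing ℂ _

theorem chart_mem_loc (Y : NormalModel L) (p : Y.Pt) {a : L} (ha : a ∈ chart Y.g p.i) :
    a ∈ Y.loc p :=
  ⟨⟨a, ha⟩, 1, fun h => p.prime.ne_top ((Ideal.eq_top_iff_one _).2 h), by simp⟩

/-- The value at a closed point of an element of the chart (Nullstellensatz). -/
theorem exists_val (Y : NormalModel L) (p : Y.Pt) (hp : p.P.IsMaximal) (a : chart Y.g p.i) :
    ∃ c : ℂ, a - algebraMap ℂ (chart Y.g p.i) c ∈ p.P := by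
  have h1 := chart_fg Y p.i
  let F := chart Y.g p.i ⧸ p.P
  letI : Field F := Ideal.Quotient.field p.P
  have h2 : Algebra.FiniteType ℂ F := Algebra.FiniteType.trans h1 inferInstance
  have h3 : Module.Finite ℂ F := finite_of_finite_type_of_isJacobsonRing ℂ F
  have h4 : Function.Bijective (algebraMap ℂ F) := IsAlgClosed.algebraMap_bijective_of_isIntegral
  obtain ⟨c, hc⟩ := h4.2 (Ideal.Quotient.mk p.P a)
  refine ⟨c, ?_⟩
  rw [← Ideal.Quotient.eq, ← hc]
  rfl

/-- The value at a closed point of an element of the local ring. -/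
theorem exists_val' (Y : NormalModel L) (p : Y.Pt) (hp : p.P.IsMaximal) {u : L}
    (hu : u ∈ Y.loc p) : ∃ c : ℂ, u - algebraMap ℂ L c ∈ maxI Y p := by
  obtain ⟨a, b, hb, rfl⟩ := hu
  obtain ⟨α, hα⟩ := exists_val Y p hp a
  obtain ⟨β, hβ⟩ := exists_val Y p hp b
  have hβ0 : β ≠ 0 := by
    rintro rfl
    rw [map_zero, sub_zero] at hβ
    exact hb hβ
  refine ⟨α / β, ?_⟩
  have hb0 := coe_ne Y p hb
  have h1 : (a : L) / b - algebraMap ℂ L (α / β) =
      ((a - algebraMap ℂ (chart Y.g p.i) α - algebraMap ℂ (chart Y.g p.i) (α / β) *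
        (b - algebraMap ℂ (chart Y.g p.i) β) : chart Y.g p.i) : L) / b := by
    have h2 : ((a - algebraMap ℂ (chart Y.g p.i) α - algebraMap ℂ (chart Y.g p.i) (α / β) *
        (b - algebraMap ℂ (chart Y.g p.i) β) : chart Y.g p.i) : L) =
        (a : L) - algebraMap ℂ L α - algebraMap ℂ L (α / β) * ((b : L) - algebraMap ℂ L β) := rfl
    rw [h2]
    have h3 : algebraMap ℂ L α = algebraMap ℂ L (α / β) * algebraMap ℂ L β := by
      rw [← map_mul, div_mul_cancel₀ _ hβ0]
    rw [h3]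
    field_simp
    ring
  exact ⟨_, b, Ideal.sub_mem _ hα (Ideal.mul_mem_left _ _ hβ), hb, h1⟩

theorem const_notMem_maxI (Y : NormalModel L) (p : Y.Pt) {c : ℂ} (hc : c ≠ 0) :
    algebraMap ℂ L c ∉ maxI Y p := by
  intro h
  have h1 : (algebraMap ℂ L c) ≠ 0 := by
    rw [Ne, map_eq_zero_iff _ (algebraMap ℂ L).injective]
    exact hc
  apply inv_notMem_loc Y p h h1
  rw [← map_inv₀]
  exact Y.const_mem_loc p _

theorem maxI_sub (Y : NormalModel L) (p : Y.Pt) {x y : L} (hx : x ∈ maxI Y p)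
    (hy : y ∈ maxI Y p) : x - y ∈ maxI Y p := by
  have h1 := maxI_mul Y p (Y.const_mem_loc p (-1)) hy
  have h2 := maxI_add Y p hx h1
  have h3 : x + algebraMap ℂ L (-1) * y = x - y := by
    rw [map_neg, map_one]; ring
  rwa [h3] at h2

/-- The homogeneous coordinate of the chart of `p` has least order along the prime divisors
through `p`. -/
theorem hypZ_eq (Y : NormalModel L) (p : Y.Pt) {ν : DVal L} (h : locAlg Y p ≤ ν.ring) :
    hypZ Y ν = - ν.ord (Y.g p.i : L) := by
  unfold hypZ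
  have := Y.fin
  have := Y.ne
  congr 1
  apply le_antisymm
  · exact ciInf_le (Set.finite_range _).bddBelow p.i
  · refine le_ciInf fun j => ?_
    have h1 : 0 ≤ ν.ord ((Y.g j : L) / Y.g p.i) := h (Y.ratio_mem_loc p j)
    rw [ν.ord_div (Units.ne_zero _) (Units.ne_zero _)] at h1
    omega

theorem hypZ_ge (Y : NormalModel L) (ν : DVal L) (j : Y.ι) :
    0 ≤ ν.ord (Y.g j : L) + hypZ Y ν := by
  unfold hypZ
  have := Y.fin
  have h1 : ⨅ i : Y.ι, ν.ord (Y.g i : L) ≤ ν.ord (Y.g j : L) :=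
    ciInf_le (Set.finite_range _).bddBelow j
  omega

/-- A non-zero element of the maximal ideal vanishes along a prime divisor through `p`. -/
theorem exists_pos (Y : NormalModel L) (p : Y.Pt) {u : L} (hu : u ∈ maxI Y p) (h0 : u ≠ 0) :
    ∃ ν ∈ primes Y, locAlg Y p ≤ ν.ring ∧ 0 < ν.ord u := by
  obtain ⟨Q, h1, h2, h3⟩ := Y.exists_primeDiv_neg p u⁻¹ (inv_notMem_loc Y p hu h0)
  refine ⟨Q, h1, h2, ?_⟩
  rw [Q.ord_inv] at h3
  omega

/-- Units of the local ring have order zero. -/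
theorem ord_unit (Y : NormalModel L) (p : Y.Pt) {u : L} (hu : u ∈ Y.loc p) (hu' : u ∉ maxI Y p)
    {ν : DVal L} (h : locAlg Y p ≤ ν.ring) : ν.ord u = 0 := by
  have h1 : 0 ≤ ν.ord u := h hu
  have h2 : 0 ≤ ν.ord u⁻¹ := h (inv_mem_loc Y p hu hu')
  rw [ν.ord_inv] at h2
  omega

theorem finDiv_primes (Y : NormalModel L) : FinDiv (primes Y) := fun f hf =>
  Y.finite_ord_ne (Units.mk0 f hf)

/-- Linear combinations of the coordinates are sections of the hyperplane class. -/
theorem lin_mem (Y : NormalModel L) [Fintype Y.ι] (c : Y.ι → ℂ) :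
    ∑ i, c i • (Y.g i : L) ∈ sec (primes Y) (hypZ Y) := by
  refine Submodule.sum_mem _ fun i _ => Submodule.smul_mem _ _ ?_
  intro ν _ _
  exact hypZ_ge Y ν i

section Transport

variable {P : Set (DVal L)} {x : Subalgebra ℂ L} {D D' : DVal L → ℤ} {f h : L}

theorem sec_transport (hh : h ≠ 0) (hD : ∀ ν ∈ P, D ν = D' ν + ν.ord h) (hf : f ∈ sec P D') :
    f / h ∈ sec P D := by
  intro ν hν h0
  have hf0 : f ≠ 0 := fun h1 => h0 (by rw [h1, zero_div])
  rw [ν.ord_div hf0 hh, hD ν hν]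
  have := hf ν hν hf0
  omega

theorem gen_transport (hh : h ≠ 0) (hD : ∀ ν ∈ P, D ν = D' ν + ν.ord h) (hf : Gen P x D' f) :
    Gen P x D (f / h) := by
  obtain ⟨h1, h2, h3⟩ := hf
  refine ⟨sec_transport hh hD h1, div_ne_zero h2 hh, fun ν hν hx => ?_⟩
  rw [ν.ord_div h2 hh, hD ν hν]
  have := h3 ν hν hx
  omega

theorem gen_transport' (hh : h ≠ 0) (hD : ∀ ν ∈ P, D ν = D' ν + ν.ord h) (hf : Gen P x D (f / h)) :
    Gen P x D' f := by
  have h1 : ∀ ν ∈ P, D' ν = D ν + ν.ord h⁻¹ := fun ν hν => by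
    rw [ν.ord_inv, hD ν hν]; ring
  have h2 := gen_transport (inv_ne_zero hh) h1 hf
  rwa [div_inv_eq_mul, div_mul_cancel₀ _ hh] at h2

end Transport

/-- A linear form which does not vanish at `p` generates the hyperplane class at `p`. -/
theorem gen_lin (Y : NormalModel L) (p : Y.Pt) {f : L} (hf : f ∈ sec (primes Y) (hypZ Y))
    (h1 : f / Y.g p.i ∈ Y.loc p) (h2 : f / Y.g p.i ∉ maxI Y p) :
    Gen (primes Y) (locAlg Y p) (hypZ Y) f := by
  have h0 := ne_zero_of_notMem_maxI Y p h1 h2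
  have hf0 : f ≠ 0 := by
    rintro rfl
    rw [zero_div] at h0
    exact h0 rfl
  refine ⟨hf, hf0, fun ν _ hx => ?_⟩
  have h3 := ord_unit Y p h1 h2 hx
  rw [ν.ord_div hf0 (Units.ne_zero _)] at h3
  rw [hypZ_eq Y p hx]
  omega

/-- A linear form which vanishes at `p` does not generate the hyperplane class at `p`. -/
theorem not_gen_lin (Y : NormalModel L) (p : Y.Pt) {f : L} (h2 : f / Y.g p.i ∈ maxI Y p) :
    ¬ Gen (primes Y) (locAlg Y p) (hypZ Y) f := by
  rintro ⟨h1, hf0, h3⟩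
  obtain ⟨ν, hν, hx, h4⟩ := exists_pos Y p h2 (div_ne_zero hf0 (Units.ne_zero _))
  have h5 := h3 ν hν hx
  rw [ν.ord_div hf0 (Units.ne_zero _)] at h4
  rw [hypZ_eq Y p hx] at h5
  omega

end Pool.Agent.LibBG
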