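import Pool.Agent.LibBG.Fin
import Pool.Agent.LibLOB.A6
import Pool.Agent.LibRR.G15
import Pool.Agent.LibRR.G18
import Pool.Agent.LibCUR.Q01
import Pool.Agent.LibKP.Cover
import Pool.Agent.LibLB.Loc

/-! THEOREM K+: the base data of a smooth projective surface. -/

set_option autoImplicit false

open Pool.Agent.LibGMM Pool.Agent.LibK Pool.Agent.LibKB

namespace Pool.Agent.LibBG

open Pool.Agent.LibRR (HZ mem_HZ)
open Pool.Agent.LibL (IsSmoothSurface)
open Pool.Agent.LibCUR (BaseData)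

variable {L : Type} [Field L] [Algebra ℂ L]

theorem sec_eq_HZ (P : Set (DVal L)) (D : DVal L → ℤ) : sec P D = HZ P D := by
  ext f
  rw [mem_sec, mem_HZ]

theorem sec_eq_H0 (P : Set (DVal L)) (D : DVal L → ℤ) :
    sec P D = H0 P fun ν => (D ν : ℚ) := sec_eq_HZ P D

/-- The hyperplane class has finite support. -/
theorem isDiv_hypZ (Y : NormalModel L) : IsDiv (primes Y) (hypZ Y) := by
  have := Y.fin
  have := Y.ne
  refine (Set.finite_iUnion fun i : Y.ι => Y.finite_ord_ne (Y.g i)).subset ?_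
  rintro ν ⟨hν, h⟩
  by_contra hcon
  simp only [Set.mem_iUnion, Set.mem_setOf_eq, not_exists, not_and, not_not] at hcon
  apply h
  unfold hypZ
  have h1 : (fun i : Y.ι => ν.ord (Y.g i : L)) = fun _ => 0 := funext fun i => hcon i hν
  rw [h1, ciInf_const, neg_zero]

/-- A divisor is principal at a closed point of a smooth surface. -/
theorem exists_loc_closed {Y : NormalModel L} (hY : IsSmoothSurface Y) {D : DVal L → ℤ}
    (hD : IsDiv (primes Y) D) {x : Subalgebra ℂ L} (hx : x ∈ LibLB.closedPts Y) :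
    ∃ g : L, g ≠ 0 ∧ ∀ ν ∈ primes Y, x ≤ ν.ring → ν.ord g = D ν := by
  obtain ⟨a, b, h⟩ := LibLOB.closedPts_coord hY x hx
  have h1 : {ν | ν ∈ Ess x ∧ D ν ≠ 0}.Finite := by
    refine hD.subset ?_
    rintro ν ⟨h2, h3⟩
    exact ⟨((LibLOB.closedPts_ess x hx ν).1 h2).1, h3⟩
  obtain ⟨g, hg, hg'⟩ := h.factorial D h1
  exact ⟨g, hg, fun ν hν hx' => hg' ν ((LibLOB.closedPts_ess x hx ν).2 ⟨hν, hx'⟩)⟩

theorem exists_baseData (Y : NormalModel L) (hY : IsSmoothSurface Y) :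
    ∃ B : BaseData L, B.prm = primes Y ∧ B.pts = LibLB.closedPts Y ∧ B.A = hypZ Y ∧
      ∃ ω : TopForm L, ω ≠ 0 ∧ B.K = fun ν => canOrd ν ω := by
  obtain ⟨ω, hω⟩ := LibKP.exists_form Y
  obtain ⟨deg, b, χ, hdeg, hRR⟩ := LibRR.riemannRoch Y hY.dim hω
  have hA : ∀ ν ∈ primes Y, hypZ Y ν = hypZ Y ν + ν.ord (1 : L) := fun ν _ => by
    rw [ν.ord_one, add_zero]
  have hK : IsDiv (primes Y) fun ν => canOrd ν ω := LibKP.finite_canOrd Y hω
  refine ⟨{
    prm := primes Y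
    pts := LibLB.closedPts Y
    dim := hY.dim
    ptsNe := LibLOB.closedPts_nonempty Y
    coord := LibLOB.closedPts_coord hY
    ess := LibLOB.closedPts_ess
    finDiv := finDiv_primes Y
    centre := LibLOB.closedPts_centre hY
    infPts := LibLOB.closedPts_infPts hY
    finSec := ?_
    A := hypZ Y
    divA := isDiv_hypZ Y
    K := fun ν => canOrd ν ω
    divK := hK
    sep := sep_closedPts Y one_ne_zero hA
    jet := jet_closedPts Y one_ne_zero hA
    gen := ?_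
    van := ?_
    d := deg
    dpos := hdeg
    b := b
    chi := χ
    poly := ?_
    dual := ?_
    rr := ?_
    canon := ?_ }, rfl, rfl, rfl, ω, hω, rfl⟩
  · intro D hD
    rw [sec_eq_H0]
    exact (hRR D hD).1
  · intro D hD
    obtain ⟨n₀, h⟩ := LibRR.exists_generated Y hY.dim D hD
    refine ⟨n₀.toNat, fun n hn x hx => ?_⟩
    obtain ⟨g, hg, hg'⟩ := exists_loc_closed hY hD hx
    obtain ⟨p, hp, rfl⟩ := hx
    obtain ⟨s, hs, hs0, hs'⟩ := h n (by omega) p ⟨g⁻¹, inv_ne_zero hg, fun ν hν hT => by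
      rw [ν.ord_inv, hg' ν hν hT]; ring⟩
    have e : (D + n • hypZ Y) = fun ν => D ν + (n : ℤ) * hypZ Y ν := by
      funext ν
      rw [Pi.add_apply, Pi.smul_apply, nsmul_eq_mul]
    rw [e]
    refine ⟨s, ?_, hs0, fun ν hν hx => hs' ν hν hx⟩
    rw [sec_eq_HZ]
    exact hs
  · intro D hD
    obtain ⟨n₀, h⟩ := (hRR D hD).2.1
    refine ⟨n₀.toNat, fun n hn => ?_⟩
    have e : (D - n • hypZ Y) = fun ν => D ν - (n : ℤ) * hypZ Y ν := by
      funext ν
      rw [Pi.sub_apply, Pi.smul_apply, nsmul_eq_mul]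
    have h1 := (h n (by omega)).1
    unfold LibKB.h0
    rw [e, sec_eq_H0]
    exact h1
  · intro D hD
    obtain ⟨n₀, h⟩ := (hRR D hD).2.1
    refine ⟨n₀.toNat, fun n hn => ?_⟩
    have e : (D + n • hypZ Y) = fun ν => D ν + (n : ℤ) * hypZ Y ν := by
      funext ν
      rw [Pi.add_apply, Pi.smul_apply, nsmul_eq_mul]
    have h1 := (h n (by omega)).2
    unfold LibKB.h0
    rw [e, sec_eq_H0]
    exact h1
  · intro D hD
    exact (hRR D hD).2.2.2.1
  · intro D hD
    have h1 := (hRR D hD).2.2.1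
    unfold LibKB.h0
    rw [sec_eq_H0, sec_eq_H0]
    exact h1
  · intro ω' hω'
    refine ⟨LibKP.finite_canOrd Y hω', ?_⟩
    obtain ⟨c, hc⟩ := LibKP.exists_smul' Y hω hω'
    refine ⟨c, c.ne_zero, fun ν hν => ?_⟩
    rw [hc]
    exact LibKP.canOrd_smul' Y (LibKP.divisorial_of_prime hν) hω c

end Pool.Agent.LibBG
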