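import Pool.Agent.LibBG.Jet
import Pool.Agent.LibLB.Base0

/-! THEOREM K+, block BASE-36: `sep` and `jet` in the form of `PSurf`, for the closed points of a
`NormalModel`. -/

set_option autoImplicit false

open Pool.Agent.LibGMM Pool.Agent.LibK Pool.Agent.LibKB

namespace Pool.Agent.LibBG

variable {L : Type} [Field L] [Algebra ℂ L]

/-- Sections of a divisor linearly equivalent to the hyperplane class separate closed points. -/
theorem sep_closedPts (Y : NormalModel L) {D : DVal L → ℤ} {h : L} (hh : h ≠ 0)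
    (hD : ∀ ν ∈ primes Y, D ν = hypZ Y ν + ν.ord h) :
    ∀ x ∈ LibLB.closedPts Y, ∀ y ∈ LibLB.closedPts Y, x ≠ y →
      ∃ f, Gen (primes Y) y D f ∧ ¬ Gen (primes Y) x D f := by
  rintro x ⟨p, hp, rfl⟩ y ⟨q, hq, rfl⟩ hne
  exact sep Y hh hD p q hp hq hne

/-- Sections of a divisor linearly equivalent to the hyperplane class generate `O_x / m_x ^ 2`. -/
theorem jet_closedPts (Y : NormalModel L) {D : DVal L → ℤ} {h : L} (hh : h ≠ 0)
    (hD : ∀ ν ∈ primes Y, D ν = hypZ Y ν + ν.ord h) :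
    ∀ x ∈ LibLB.closedPts Y, ∀ E, LibLB.IsOrd x E → ∀ g, LocEqn (primes Y) x D g →
      ∀ z ∈ x, ∃ f ∈ sec (primes Y) D, Ge E 2 (f * g - z) := by
  rintro x ⟨p, hp, rfl⟩ E hE g hg z hz
  exact jet Y hh hD p hp hE hg hz

end Pool.Agent.LibBG
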