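import Pool.Agent.LibBG.Sep

/-! THEOREM K+, block BASE-36: linear forms generate `O_x / m_x ^ 2` (`jet`). -/

set_option autoImplicit false

open Pool.Agent.LibGMM Pool.Agent.LibK Pool.Agent.LibKB

namespace Pool.Agent.LibBG

open Pool.Agent.LibCov80 (locAlg maxI mem_locAlg mem_maxI_iff maxI_le maxI_add maxI_mul maxI_prime
  inv_mem_loc inv_notMem_loc ne_zero_of_notMem_maxI coe_ne)

variable {L : Type} [Field L] [Algebra ℂ L]

theorem ge_add {E : DVal L} {k : ℤ} {f g : L} (hf : Ge E k f) (hg : Ge E k g) : Ge E k (f + g) := by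
  intro h
  by_cases h0 : f = 0
  · subst h0
    rw [zero_add] at h ⊢
    exact hg h
  by_cases h1 : g = 0
  · subst h1
    rw [add_zero] at h ⊢
    exact hf h
  exact le_trans (le_min (hf h0) (hg h1)) (E.ord_add f g h0 h1 h)

theorem ge_mul {E : DVal L} {k l : ℤ} {f g : L} (hf : Ge E k f) (hg : Ge E l g) :
    Ge E (k + l) (f * g) := by
  intro h
  have h0 := left_ne_zero_of_mul h
  have h1 := right_ne_zero_of_mul h
  rw [E.ord_mul _ _ h0 h1]
  exact add_le_add (hf h0) (hg h1)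

theorem ge_neg {E : DVal L} {k : ℤ} {f : L} (hf : Ge E k f) : Ge E k (-f) := by
  intro h
  rw [E.ord_neg]
  exact hf (neg_ne_zero.1 h)

theorem ge_zero {E : DVal L} {k : ℤ} : Ge E k 0 := fun h => absurd rfl h

theorem ge_sub {E : DVal L} {k : ℤ} {f g : L} (hf : Ge E k f) (hg : Ge E k g) :
    Ge E k (f - g) := by
  rw [sub_eq_add_neg]
  exact ge_add hf (ge_neg hg)

theorem ge_mono {E : DVal L} {k l : ℤ} (h : l ≤ k) {f : L} (hf : Ge E k f) : Ge E l f :=
  fun h0 => le_trans h (hf h0)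

theorem ge_const {E : DVal L} (c : ℂ) : Ge E 0 (algebraMap ℂ L c) := fun _ => by
  rw [E.ord_const]

theorem ge_sum {E : DVal L} {k : ℤ} {ι : Type} (s : Finset ι) (f : ι → L)
    (h : ∀ i ∈ s, Ge E k (f i)) : Ge E k (∑ i ∈ s, f i) := by
  classical
  induction s using Finset.induction_on with
  | empty => rw [Finset.sum_empty]; exact ge_zero
  | insert a s ha ih =>
    rw [Finset.sum_insert ha]
    exact ge_add (h a (Finset.mem_insert_self _ _))
      (ih fun i hi => h i (Finset.mem_insert_of_mem hi))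

/-- The order function is non-negative on the local ring. -/
theorem ord_ge_zero {x : Subalgebra ℂ L} {E : DVal L} (hE : LibLB.IsOrd x E) {f : L}
    (hf : f ∈ x) : Ge E 0 f := by
  obtain ⟨a, b, h1, h2⟩ := hE
  intro h0
  have h3 := (h2 f hf h0 0).2 ⟨fun _ => f, fun _ => hf, by simp⟩
  simpa using h3

/-- The order function is positive on the maximal ideal. -/
theorem ord_ge_one (Y : NormalModel L) (p : Y.Pt) {E : DVal L}
    (hE : LibLB.IsOrd (locAlg Y p) E) {f : L} (hf : f ∈ maxI Y p) : Ge E 1 f := by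
  obtain ⟨a, b, h1, h2⟩ := hE
  intro h0
  rcases h1.unit f (maxI_le Y p hf) with h3 | ⟨u, hu, v, hv, h3⟩
  · exact absurd h3 (inv_notMem_loc Y p hf h0)
  · have h4 := (h2 f (maxI_le Y p hf) h0 1).2 ⟨fun i => if i = 0 then v else u, fun i => by
        dsimp only
        split_ifs
        · exact hv
        · exact hu, by
        rw [h3, Finset.sum_range_succ, Finset.sum_range_one]
        simp
        ring⟩
    simpa using h4

/-- Every element of the local ring is, up to order two, a linear combination of the constant one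
and the coordinates. -/
theorem exists_lin (Y : NormalModel L) [Fintype Y.ι] (p : Y.Pt) (hp : p.P.IsMaximal) {E : DVal L}
    (hE : LibLB.IsOrd (locAlg Y p) E) (α : Y.ι → ℂ)
    (hα : ∀ k, (Y.g k : L) / Y.g p.i - algebraMap ℂ L (α k) ∈ maxI Y p) {w : L}
    (hw : w ∈ Y.loc p) :
    ∃ (c₀ : ℂ) (c : Y.ι → ℂ), Ge E 2 (w - algebraMap ℂ L c₀ -
      ∑ k, algebraMap ℂ L (c k) * ((Y.g k : L) / Y.g p.i - algebraMap ℂ L (α k))) := by
  classical
  set t : Y.ι → L := fun k => (Y.g k : L) / Y.g p.i - algebraMap ℂ L (α k) with ht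
  have ht1 : ∀ k, Ge E 1 (t k) := fun k => ord_ge_one Y p hE (hα k)
  have hl1 : ∀ c : Y.ι → ℂ, Ge E 1 (∑ k, algebraMap ℂ L (c k) * t k) := fun c =>
    ge_sum _ _ fun k _ => by
      have := ge_mul (ge_const (E := E) (c k)) (ht1 k)
      simpa using this
  have hmul : ∀ u v : L, (∃ (c₀ : ℂ) (c : Y.ι → ℂ), Ge E 2 (u - algebraMap ℂ L c₀ -
      ∑ k, algebraMap ℂ L (c k) * t k)) → (∃ (c₀ : ℂ) (c : Y.ι → ℂ), Ge E 2 (v -
      algebraMap ℂ L c₀ - ∑ k, algebraMap ℂ L (c k) * t k)) →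
      ∃ (c₀ : ℂ) (c : Y.ι → ℂ), Ge E 2 (u * v - algebraMap ℂ L c₀ -
      ∑ k, algebraMap ℂ L (c k) * t k) := by
    rintro u v ⟨c₀, c, hu⟩ ⟨d₀, d, hv⟩
    refine ⟨c₀ * d₀, fun k => c₀ * d k + d₀ * c k, ?_⟩
    set lc := ∑ k, algebraMap ℂ L (c k) * t k with hlc
    set ld := ∑ k, algebraMap ℂ L (d k) * t k with hld
    have e1 : ∑ k, algebraMap ℂ L (c₀ * d k + d₀ * c k) * t k =
        algebraMap ℂ L c₀ * ld + algebraMap ℂ L d₀ * lc := by
      rw [hlc, hld, Finset.mul_sum, Finset.mul_sum, ← Finset.sum_add_distrib]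
      exact Finset.sum_congr rfl fun k _ => by rw [map_add, map_mul, map_mul]; ring
    have e2 : u * v - algebraMap ℂ L (c₀ * d₀) -
        (algebraMap ℂ L c₀ * ld + algebraMap ℂ L d₀ * lc) =
        (u - algebraMap ℂ L c₀ - lc) * (v - algebraMap ℂ L d₀ - ld) +
        (u - algebraMap ℂ L c₀ - lc) * (algebraMap ℂ L d₀ + ld) +
        (v - algebraMap ℂ L d₀ - ld) * (algebraMap ℂ L c₀ + lc) + lc * ld := by
      rw [map_mul]; ring
    rw [e1, e2]
    have hc0 : Ge E 0 (algebraMap ℂ L c₀ + lc) :=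
      ge_add (ge_const c₀) (ge_mono (by norm_num) (hl1 c))
    have hd0 : Ge E 0 (algebraMap ℂ L d₀ + ld) :=
      ge_add (ge_const d₀) (ge_mono (by norm_num) (hl1 d))
    refine ge_add (ge_add (ge_add ?_ ?_) ?_) ?_
    · exact ge_mono (by norm_num) (ge_mul hu hv)
    · exact ge_mono (by norm_num) (ge_mul hu hd0)
    · exact ge_mono (by norm_num) (ge_mul hv hc0)
    · exact ge_mono (by norm_num) (ge_mul (hl1 c) (hl1 d))
  have hchart : ∀ a ∈ chart Y.g p.i, ∃ (c₀ : ℂ) (c : Y.ι → ℂ),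
      Ge E 2 (a - algebraMap ℂ L c₀ - ∑ k, algebraMap ℂ L (c k) * t k) := by
    intro a ha
    unfold chart at ha
    induction ha using Algebra.adjoin_induction with
    | mem a ha =>
      obtain ⟨k, rfl⟩ := ha
      refine ⟨α k, fun l => if l = k then 1 else 0, ?_⟩
      have e1 : ∑ l, algebraMap ℂ L (if l = k then 1 else 0) * t l = t k := by
        rw [Finset.sum_eq_single k]
        · simp
        · intro l _ hl
          rw [if_neg hl]; simp
        · intro h; exact absurd (Finset.mem_univ k) h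
      rw [e1, ht]
      simp only [sub_self]
      exact ge_zero
    | algebraMap r =>
      refine ⟨r, 0, ?_⟩
      simp only [Pi.zero_apply, map_zero, zero_mul, Finset.sum_const_zero, sub_self]
      exact ge_zero
    | add a b _ _ iha ihb =>
      obtain ⟨c₀, c, hu⟩ := iha
      obtain ⟨d₀, d, hv⟩ := ihb
      refine ⟨c₀ + d₀, fun k => c k + d k, ?_⟩
      have e1 : a + b - algebraMap ℂ L (c₀ + d₀) - ∑ k, algebraMap ℂ L (c k + d k) * t k =
          (a - algebraMap ℂ L c₀ - ∑ k, algebraMap ℂ L (c k) * t k) +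
          (b - algebraMap ℂ L d₀ - ∑ k, algebraMap ℂ L (d k) * t k) := by
        have e2 : ∑ k, algebraMap ℂ L (c k + d k) * t k =
            ∑ k, algebraMap ℂ L (c k) * t k + ∑ k, algebraMap ℂ L (d k) * t k := by
          rw [← Finset.sum_add_distrib]
          exact Finset.sum_congr rfl fun k _ => by rw [map_add]; ring
        rw [e2, map_add]; ring
      rw [e1]
      exact ge_add hu hv
    | mul a b _ _ iha ihb => exact hmul a b iha ihb
  obtain ⟨a, b, hb, rfl⟩ := hw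
  rw [div_eq_mul_inv]
  refine hmul _ _ (hchart a a.2) ?_
  obtain ⟨c₀, c, h1⟩ := hchart b b.2
  set lc := ∑ k, algebraMap ℂ L (c k) * t k with hlc
  have hbp : (b : L) ∉ maxI Y p := fun h => hb ((mem_maxI_iff Y p b).1 h)
  have hb0 := coe_ne Y p hb
  have hbl : (b : L) ∈ Y.loc p := chart_mem_loc Y p b.2
  have hbi : Ge E 0 (b : L)⁻¹ := ord_ge_zero hE (inv_mem_loc Y p hbl hbp)
  have hc0 : c₀ ≠ 0 := by
    rintro rfl
    rw [map_zero, sub_zero] at h1
    have h2 : Ge E 1 (b : L) := by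
      have h3 := ge_add (ge_mono (l := 1) (by norm_num) h1) (hl1 c)
      rwa [sub_add_cancel] at h3
    have h3 := ge_mul h2 hbi
    rw [mul_inv_cancel₀ hb0] at h3
    have h4 := h3 one_ne_zero
    rw [E.ord_one] at h4
    norm_num at h4
  have hc0' : algebraMap ℂ L c₀ ≠ 0 := by
    rw [Ne, map_eq_zero_iff _ (algebraMap ℂ L).injective]; exact hc0
  refine ⟨c₀⁻¹, fun k => - (c₀⁻¹ * c₀⁻¹) * c k, ?_⟩
  have e1 : ∑ k, algebraMap ℂ L (- (c₀⁻¹ * c₀⁻¹) * c k) * t k =
      - ((algebraMap ℂ L c₀)⁻¹ * (algebraMap ℂ L c₀)⁻¹) * lc := by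
    rw [hlc, Finset.mul_sum]
    exact Finset.sum_congr rfl fun k _ => by
      rw [map_mul, map_neg, map_mul, map_inv₀]; ring
  have e2 : (b : L)⁻¹ - algebraMap ℂ L c₀⁻¹ -
      - ((algebraMap ℂ L c₀)⁻¹ * (algebraMap ℂ L c₀)⁻¹) * lc =
      - ((b : L)⁻¹ * (algebraMap ℂ L (c₀⁻¹ * c₀⁻¹) *
        (((b : L) - algebraMap ℂ L c₀ - lc) * (algebraMap ℂ L c₀ - lc) - lc * lc))) := by
    rw [map_inv₀, map_mul, map_inv₀]
    field_simp
    ring
  rw [e1, e2]
  refine ge_neg ?_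
  have h2 : Ge E 0 (algebraMap ℂ L c₀ - lc) :=
    ge_sub (ge_const c₀) (ge_mono (by norm_num) (hl1 c))
  have h3 : Ge E 2 (((b : L) - algebraMap ℂ L c₀ - lc) * (algebraMap ℂ L c₀ - lc) - lc * lc) :=
    ge_sub (ge_mono (by norm_num) (ge_mul h1 h2)) (ge_mono (by norm_num) (ge_mul (hl1 c) (hl1 c)))
  have h4 := ge_mul hbi (ge_mul (ge_const (c₀⁻¹ * c₀⁻¹)) h3)
  exact ge_mono (by norm_num) h4

/-- **Sections of the hyperplane class generate `O_x / m_x ^ 2`.** -/
theorem jet_hyp (Y : NormalModel L) (p : Y.Pt) (hp : p.P.IsMaximal) {E : DVal L}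
    (hE : LibLB.IsOrd (locAlg Y p) E) {g : L}
    (hg : LocEqn (primes Y) (locAlg Y p) (hypZ Y) g) {z : L} (hz : z ∈ locAlg Y p) :
    ∃ f ∈ sec (primes Y) (hypZ Y), Ge E 2 (f * g - z) := by
  classical
  have := Y.fin
  have := Fintype.ofFinite Y.ι
  obtain ⟨α, hα1, hα⟩ := exists_coords Y p hp
  obtain ⟨hg0, hg1⟩ := hg
  have hgi := (Y.g p.i).ne_zero
  -- `u = g * g_i` is a unit
  set u : L := g * Y.g p.i with hu
  have hu0 : u ≠ 0 := mul_ne_zero hg0 hgi
  have hord : ∀ ν ∈ primes Y, locAlg Y p ≤ ν.ring → ν.ord u = 0 := by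
    intro ν hν hx
    rw [hu, ν.ord_mul _ _ hg0 hgi, hg1 ν hν hx, hypZ_eq Y p hx]
    ring
  have hu1 : u ∈ Y.loc p := Y.mem_loc p u fun Q hQ hT => (hord Q hQ hT).ge
  have hu2 : u⁻¹ ∈ Y.loc p := Y.mem_loc p u⁻¹ fun Q hQ hT => by
    rw [Q.ord_inv, hord Q hQ hT]; simp
  obtain ⟨c₀, c, hc⟩ := exists_lin Y p hp hE α hα (Y.mul_mem_loc p hu2 hz)
  set lc := ∑ k, algebraMap ℂ L (c k) * ((Y.g k : L) / Y.g p.i - algebraMap ℂ L (α k)) with hlc
  -- the linear form
  refine ⟨∑ k, (c k + if k = p.i then c₀ - ∑ l, c l * α l else 0) • (Y.g k : L),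
    lin_mem Y _, ?_⟩
  have e1 : (∑ k, (c k + if k = p.i then c₀ - ∑ l, c l * α l else 0) • (Y.g k : L)) =
      (algebraMap ℂ L c₀ + lc) * Y.g p.i := by
    have e2 : ∀ k, (c k + if k = p.i then c₀ - ∑ l, c l * α l else 0) • (Y.g k : L) =
        algebraMap ℂ L (c k) * (Y.g k : L) +
          (if k = p.i then algebraMap ℂ L (c₀ - ∑ l, c l * α l) * (Y.g k : L) else 0) := by
      intro k
      rw [add_smul, Algebra.smul_def, Algebra.smul_def]
      split_ifs <;> simp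
    simp_rw [e2]
    rw [Finset.sum_add_distrib, Finset.sum_ite_eq', if_pos (Finset.mem_univ _), hlc,
      map_sub, map_sum, add_mul, Finset.sum_mul, sub_mul, Finset.sum_mul]
    have e3 : ∀ k, algebraMap ℂ L (c k) * ((Y.g k : L) / Y.g p.i - algebraMap ℂ L (α k)) *
        Y.g p.i = algebraMap ℂ L (c k) * (Y.g k : L) -
          algebraMap ℂ L (c k * α k) * Y.g p.i := by
      intro k
      rw [map_mul]
      field_simp
    simp_rw [e3]
    rw [Finset.sum_sub_distrib]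
    ring
  rw [e1]
  have e4 : (algebraMap ℂ L c₀ + lc) * Y.g p.i * g - z =
      - (u * (u⁻¹ * z - algebraMap ℂ L c₀ - lc)) := by
    have e5 : u * (u⁻¹ * z - algebraMap ℂ L c₀ - lc) = z - u * (algebraMap ℂ L c₀ + lc) := by
      rw [sub_sub, mul_sub, ← mul_assoc, mul_inv_cancel₀ hu0, one_mul]
    rw [e5, hu]
    ring
  rw [e4]
  have h3 := ge_mul (ord_ge_zero hE (show u ∈ locAlg Y p from hu1)) hc
  exact ge_neg (ge_mono (by norm_num) h3)

/-- `jet` for a divisor linearly equivalent to the hyperplane class. -/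
theorem jet (Y : NormalModel L) {D : DVal L → ℤ} {h : L} (hh : h ≠ 0)
    (hD : ∀ ν ∈ primes Y, D ν = hypZ Y ν + ν.ord h) (p : Y.Pt) (hp : p.P.IsMaximal) {E : DVal L}
    (hE : LibLB.IsOrd (locAlg Y p) E) {g : L} (hg : LocEqn (primes Y) (locAlg Y p) D g) {z : L}
    (hz : z ∈ locAlg Y p) : ∃ f ∈ sec (primes Y) D, Ge E 2 (f * g - z) := by
  have hg' : LocEqn (primes Y) (locAlg Y p) (hypZ Y) (g / h) := by
    refine ⟨div_ne_zero hg.1 hh, fun ν hν hx => ?_⟩
    rw [ν.ord_div hg.1 hh, hg.2 ν hν hx, hD ν hν]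
    ring
  obtain ⟨f, h1, h2⟩ := jet_hyp Y p hp hE hg' hz
  refine ⟨f / h, sec_transport hh hD h1, ?_⟩
  have e : f / h * g = f * (g / h) := by ring
  rw [e]
  exact h2

end Pool.Agent.LibBG
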