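import Pool.Agent.LibBG.Base

/-! THEOREM K+, block BASE-36: linear forms separate closed points (`sep`) and tangent vectors
(`jet`). -/

set_option autoImplicit false

open Pool.Agent.LibGMM Pool.Agent.LibK Pool.Agent.LibKB

namespace Pool.Agent.LibBG

open Pool.Agent.LibCov80 (locAlg maxI mem_locAlg mem_maxI_iff maxI_le maxI_add maxI_mul maxI_prime
  inv_mem_loc inv_notMem_loc ne_zero_of_notMem_maxI coe_ne)

variable {L : Type} [Field L] [Algebra ℂ L]

/-- If the chart of `p` is regular at `q` and the coordinates have the same values at `p` and `q`,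
then the local ring of `p` is contained in the one of `q`. -/
theorem loc_le_of_values (Y : NormalModel L) (p q : Y.Pt) (α : Y.ι → ℂ)
    (hα : ∀ k, (Y.g k : L) / Y.g p.i - algebraMap ℂ L (α k) ∈ maxI Y p)
    (hq : ∀ k, (Y.g k : L) / Y.g p.i ∈ Y.loc q)
    (hα' : ∀ k, (Y.g k : L) / Y.g p.i - algebraMap ℂ L (α k) ∈ maxI Y q) :
    locAlg Y p ≤ locAlg Y q := by
  have h1 : ∀ a ∈ chart Y.g p.i, a ∈ Y.loc q ∧ ∃ c : ℂ, a - algebraMap ℂ L c ∈ maxI Y p ∧
      a - algebraMap ℂ L c ∈ maxI Y q := by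
    intro a ha
    unfold chart at ha
    induction ha using Algebra.adjoin_induction with
    | mem a ha =>
      obtain ⟨k, rfl⟩ := ha
      exact ⟨hq k, α k, hα k, hα' k⟩
    | algebraMap r =>
      have h0 : ∀ p' : Y.Pt, (0 : L) ∈ maxI Y p' := fun p' =>
        ⟨0, 1, p'.P.zero_mem, fun h => p'.prime.ne_top ((Ideal.eq_top_iff_one _).2 h), by simp⟩
      refine ⟨Y.const_mem_loc q r, r, ?_, ?_⟩
      · rw [sub_self]; exact h0 p
      · rw [sub_self]; exact h0 q
    | add a b ha hb iha ihb =>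
      obtain ⟨h2, c, h3, h4⟩ := iha
      obtain ⟨h2', c', h3', h4'⟩ := ihb
      have e : a + b - algebraMap ℂ L (c + c') =
          (a - algebraMap ℂ L c) + (b - algebraMap ℂ L c') := by rw [map_add]; ring
      refine ⟨Y.add_mem_loc q h2 h2', c + c', ?_, ?_⟩
      · rw [e]; exact maxI_add Y p h3 h3'
      · rw [e]; exact maxI_add Y q h4 h4'
    | mul a b ha hb iha ihb =>
      obtain ⟨h2, c, h3, h4⟩ := iha
      obtain ⟨h2', c', h3', h4'⟩ := ihb
      have e : a * b - algebraMap ℂ L (c * c') =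
          b * (a - algebraMap ℂ L c) + algebraMap ℂ L c * (b - algebraMap ℂ L c') := by
        rw [map_mul]; ring
      have hb' : b ∈ Y.loc p := chart_mem_loc Y p (by unfold chart; exact hb)
      refine ⟨Y.mul_mem_loc q h2 h2', c * c', ?_, ?_⟩
      · rw [e]
        exact maxI_add Y p (maxI_mul Y p hb' h3) (maxI_mul Y p (Y.const_mem_loc p c) h3')
      · rw [e]
        exact maxI_add Y q (maxI_mul Y q h2' h4) (maxI_mul Y q (Y.const_mem_loc q c) h4')
  rintro x ⟨a, b, hb, rfl⟩
  obtain ⟨ha1, -⟩ := h1 a a.2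
  obtain ⟨hb1, c, hc, hc'⟩ := h1 b b.2
  have hbp : (b : L) ∉ maxI Y p := fun h => hb ((mem_maxI_iff Y p b).1 h)
  have hc0 : c ≠ 0 := by
    rintro rfl
    rw [map_zero, sub_zero] at hc
    exact hbp hc
  have hbq : (b : L) ∉ maxI Y q := by
    intro h
    have h2 := maxI_sub Y q h hc'
    rw [sub_sub_cancel] at h2
    exact const_notMem_maxI Y q hc0 h2
  change (a : L) / b ∈ Y.loc q
  rw [div_eq_mul_inv]
  exact Y.mul_mem_loc q ha1 (inv_mem_loc Y q hb1 hbq)

/-- The values of the coordinates at a closed point. -/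
theorem exists_coords (Y : NormalModel L) (p : Y.Pt) (hp : p.P.IsMaximal) :
    ∃ α : Y.ι → ℂ, α p.i = 1 ∧
      ∀ k, (Y.g k : L) / Y.g p.i - algebraMap ℂ L (α k) ∈ maxI Y p := by
  classical
  have h1 := fun k => exists_val' Y p hp (Y.ratio_mem_loc p k)
  choose α hα using h1
  refine ⟨α, ?_, hα⟩
  have h2 := hα p.i
  rw [div_self (Units.ne_zero _)] at h2
  by_contra h3
  have h4 : (1 : L) - algebraMap ℂ L (α p.i) = algebraMap ℂ L (1 - α p.i) := by
    rw [map_sub, map_one]
  rw [h4] at h2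
  exact const_notMem_maxI Y p (sub_ne_zero.2 (Ne.symm h3)) h2

/-- Values of linear forms. -/
theorem lin_val (Y : NormalModel L) [Fintype Y.ι] (p : Y.Pt) (α : Y.ι → ℂ)
    (hα : ∀ k, (Y.g k : L) / Y.g p.i - algebraMap ℂ L (α k) ∈ maxI Y p) (c : Y.ι → ℂ) :
    (∑ i, c i • (Y.g i : L)) / Y.g p.i - algebraMap ℂ L (∑ i, c i * α i) ∈ maxI Y p := by
  have h0 : (0 : L) ∈ maxI Y p :=
    ⟨0, 1, p.P.zero_mem, fun h => p.prime.ne_top ((Ideal.eq_top_iff_one _).2 h), by simp⟩
  have h1 : (∑ i, c i • (Y.g i : L)) / Y.g p.i - algebraMap ℂ L (∑ i, c i * α i) =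
      ∑ i, algebraMap ℂ L (c i) * ((Y.g i : L) / Y.g p.i - algebraMap ℂ L (α i)) := by
    rw [Finset.sum_div, map_sum, ← Finset.sum_sub_distrib]
    refine Finset.sum_congr rfl fun i _ => ?_
    rw [Algebra.smul_def, map_mul]
    ring
  rw [h1]
  have h2 : ∀ s : Finset Y.ι,
      ∑ i ∈ s, algebraMap ℂ L (c i) * ((Y.g i : L) / Y.g p.i - algebraMap ℂ L (α i)) ∈
        maxI Y p := by
    classical
    intro s
    induction s using Finset.induction_on with
    | empty => simpa using h0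
    | insert a s ha ih =>
      rw [Finset.sum_insert ha]
      exact maxI_add Y p (maxI_mul Y p (Y.const_mem_loc p _) (hα a)) ih
  exact h2 _

theorem lin_loc (Y : NormalModel L) [Fintype Y.ι] (p : Y.Pt) (c : Y.ι → ℂ) :
    (∑ i, c i • (Y.g i : L)) / Y.g p.i ∈ Y.loc p := by
  have h1 : (∑ i, c i • (Y.g i : L)) / Y.g p.i = ∑ i, c i • ((Y.g i : L) / Y.g p.i) := by
    rw [Finset.sum_div]
    exact Finset.sum_congr rfl fun i _ => by rw [smul_div_assoc]
  rw [h1]
  exact (locAlg Y p).sum_mem fun i _ => (locAlg Y p).smul_mem (Y.ratio_mem_loc p i) _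

/-- **Linear forms separate closed points.** -/
theorem sep_hyp (Y : NormalModel L) (p q : Y.Pt) (hp : p.P.IsMaximal) (hq : q.P.IsMaximal)
    (hne : locAlg Y p ≠ locAlg Y q) :
    ∃ f, Gen (primes Y) (locAlg Y q) (hypZ Y) f ∧ ¬ Gen (primes Y) (locAlg Y p) (hypZ Y) f := by
  classical
  have := Y.fin
  have := Fintype.ofFinite Y.ι
  obtain ⟨α, hα1, hα⟩ := exists_coords Y p hp
  obtain ⟨β, hβ1, hβ⟩ := exists_coords Y q hq
  -- a linear form vanishing at `p` and not at `q`
  by_cases hprop : ∀ c : Y.ι → ℂ, ∑ i, c i * α i = 0 → ∑ i, c i * β i = 0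
  · exfalso
    -- `β k = β p.i * α k`
    have h1 : ∀ k, β k = β p.i * α k := by
      intro k
      have h2 := hprop (fun i => (if i = k then 1 else 0) - (if i = p.i then α k else 0)) (by
        simp only [sub_mul, ite_mul, one_mul, zero_mul, Finset.sum_sub_distrib,
          Finset.sum_ite_eq', Finset.mem_univ, if_true, hα1, mul_one, sub_self])
      simp only [sub_mul, ite_mul, one_mul, zero_mul, Finset.sum_sub_distrib,
          Finset.sum_ite_eq', Finset.mem_univ, if_true] at h2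
      linear_combination h2
    have h3 : β p.i ≠ 0 := by
      intro h4
      have h5 := h1 q.i
      rw [hβ1, h4, zero_mul] at h5
      exact one_ne_zero h5
    have h3' : α q.i ≠ 0 := by
      intro h4
      have h5 := h1 q.i
      rw [hβ1, h4, mul_zero] at h5
      exact one_ne_zero h5
    have key : ∀ (p q : Y.Pt) (α β : Y.ι → ℂ),
        (∀ k, (Y.g k : L) / Y.g p.i - algebraMap ℂ L (α k) ∈ maxI Y p) →
        (∀ k, (Y.g k : L) / Y.g q.i - algebraMap ℂ L (β k) ∈ maxI Y q) → β p.i ≠ 0 →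
        (∀ k, β k = β p.i * α k) → locAlg Y p ≤ locAlg Y q := by
      intro p q α β hα hβ h3 h1
      have h4 : (Y.g p.i : L) / Y.g q.i ∉ maxI Y q := by
        intro h5
        have h6 := maxI_sub Y q h5 (hβ p.i)
        rw [sub_sub_cancel] at h6
        exact const_notMem_maxI Y q h3 h6
      have h5 : (Y.g q.i : L) / Y.g p.i ∈ Y.loc q := by
        have := inv_mem_loc Y q (Y.ratio_mem_loc q p.i) h4
        rwa [inv_div] at this
      have hgq := (Y.g q.i).ne_zero
      have hgp := (Y.g p.i).ne_zero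
      have h6 : ∀ k, (Y.g k : L) / Y.g p.i ∈ Y.loc q := by
        intro k
        have h7 := Y.mul_mem_loc q (Y.ratio_mem_loc q k) h5
        have h8 : (Y.g k : L) / Y.g q.i * ((Y.g q.i : L) / Y.g p.i) = (Y.g k : L) / Y.g p.i := by
          field_simp
        rwa [h8] at h7
      refine loc_le_of_values Y p q α hα h6 fun k => ?_
      have h7 : (Y.g k : L) / Y.g p.i - algebraMap ℂ L (α k) =
          (Y.g q.i : L) / Y.g p.i * (((Y.g k : L) / Y.g q.i - algebraMap ℂ L (β k)) -
            algebraMap ℂ L (α k) * ((Y.g p.i : L) / Y.g q.i - algebraMap ℂ L (β p.i))) := by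
        rw [h1 k, map_mul]
        field_simp
        ring
      rw [h7]
      exact maxI_mul Y q h5 (maxI_sub Y q (hβ k) (maxI_mul Y q (Y.const_mem_loc q _) (hβ p.i)))
    refine hne (le_antisymm (key p q α β hα hβ h3 h1) (key q p β α hβ hα h3' fun k => ?_))
    have h4 := h1 k
    have h5 := h1 q.i
    rw [hβ1] at h5
    rw [h4]
    linear_combination α k * h5
  · push Not at hprop
    obtain ⟨c, hc1, hc2⟩ := hprop
    refine ⟨∑ i, c i • (Y.g i : L), ?_, ?_⟩
    · refine gen_lin Y q (lin_mem Y c) (lin_loc Y q c) ?_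
      intro h
      have h2 := maxI_sub Y q h (lin_val Y q β hβ c)
      rw [sub_sub_cancel] at h2
      exact const_notMem_maxI Y q hc2 h2
    · refine not_gen_lin Y p ?_
      have h2 := lin_val Y p α hα c
      rwa [hc1, map_zero, sub_zero] at h2

/-- `sep` for a divisor linearly equivalent to the hyperplane class. -/
theorem sep (Y : NormalModel L) {D : DVal L → ℤ} {h : L} (hh : h ≠ 0)
    (hD : ∀ ν ∈ primes Y, D ν = hypZ Y ν + ν.ord h) (p q : Y.Pt) (hp : p.P.IsMaximal)
    (hq : q.P.IsMaximal) (hne : locAlg Y p ≠ locAlg Y q) :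
    ∃ f, Gen (primes Y) (locAlg Y q) D f ∧ ¬ Gen (primes Y) (locAlg Y p) D f := by
  obtain ⟨f, h1, h2⟩ := sep_hyp Y p q hp hq hne
  exact ⟨f / h, gen_transport hh hD h1, fun h3 => h2 (gen_transport' hh hD h3)⟩

end Pool.Agent.LibBG
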